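import Pool.Graph.R_pool_sql_team_seeded_2aa45f1a.Q72.BBF.Defs

/-!
# The size of the obstructions to a Bloch-Beilinson filtration: definitions
-/

open CategoryTheory AlgebraicGeometry

universe u v w

namespace Pool.Agent.H92.BBC

open Pool.Agent.H914 Pool.Agent.H914.VarClass Pool.Agent.H914.VarClass.Obj Pool.Agent.W492.BB
  Pool.Agent.TH133 Pool.Agent.Y148.BB Pool.Agent.Q72.DP Pool.Agent.Q72.BBF

variable {k : Type u} [Field k] {𝒱 : VarClass k}

section chow

variable (C : TheoryData.{u, v, 0} 𝒱 ℚ)

/-- The zero-cycles on a product `X × Y` are sums of products `x × y` of zero-cycles on `X` and on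
`Y`: the points of `X × Y` are the pairs of points (`k` is algebraically closed). -/
def ZeroCyclesOnProducts : Prop :=
  ∀ (X Y : 𝒱.Obj) (z : C.A (X.prod Y)), C.Deg (X.prod Y).dim z →
    z ∈ Submodule.span ℚ {c | ∃ (x : C.A X) (y : C.A Y), C.Deg X.dim x ∧ C.Deg Y.dim y ∧
      c = C.ext x y}

end chow

variable {C : TheoryData.{u, v, 0} 𝒱 ℚ} {K : Type w} [Field K] (H : WeilTheoryData.{u, v, w} C K)

/-- `w` is a zero-cycle of degree zero (that is, a homologically trivial zero-cycle) on `W`. -/
def IsNull {W : 𝒱.Obj} (w : C.A W) : Prop := C.Deg W.dim w ∧ H.cl w = 0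

/-- The set `G` of classes in `CH^m(V)` is finite-dimensional up to a countable set: there are a curve
`T`, a correspondence `Γ ∈ CH^m(T × V)` and a countable set `S` such that every class in `G` is the
sum of a class `Γ_* t`, with `t` a zero-cycle of degree zero on `T` (a point of the Jacobian variety
of `T`, up to torsion), and of a class in `S`. Since every abelian variety is a quotient of the
Jacobian variety of a curve, this is the case if the algebraically trivial classes in `G` are
representable by an abelian variety, and also if `G` is countable. -/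
def SmallAt {V : 𝒱.Obj} (m : ℕ) (G : C.A V → Prop) : Prop :=
  ∃ (T : 𝒱.Obj) (Γ : C.A (T.prod V)) (S : Set (C.A V)), T.dim = 1 ∧ C.Deg m Γ ∧ S.Countable ∧
    ∀ z, G z → ∃ (t : C.A T) (s : C.A V), IsNull H t ∧ s ∈ S ∧ z = C.act Γ t + s

/-- A family of cycles with values in a finite-dimensional group factors through a map from the
Albanese variety of the base to the Jacobian variety. Let `Z ∈ CH^m(W × V)`, let `T` be a curve,
`Γ ∈ CH^m(T × V)` and `S` a countable set of classes, such that for every zero-cycle `w` of degree
zero on `W` the class `Z_* w` is of the form `Γ_* t + s`, with a zero-cycle `t` of degree zero on `T`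
and `s ∈ S`. Then there is a divisor class `D` on `W × T` with `Z_* w = Γ_* (D_* w)` for all
zero-cycles `w` of degree zero on `W`.

For `k = ℂ` this is a well known theorem (the argument goes back to Mumford and Roitman). Let `J` be
the Jacobian variety of `T` and `w_0 ∈ W` a point. The pairs `(w, t) ∈ W × J` with
`Z_* (w - w_0) - Γ_* t ∈ S` in the Chow group with rational coefficients form a countable union of
closed subsets, so one irreducible closed set `R` among them maps onto `W`, and belongs to one
`s ∈ S`. The `t ∈ J` with `Γ_* t = 0` form a subgroup which is a countable union of closed sets,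
hence of translates of an abelian subvariety `A`. The image of `R` in `W × J/A` is finite over a
dense open subset of `W`; summation over the fibres is a rational map, hence a morphism
`g : W → J/A`, and `Γ_* g(w) = r (Z_* (w - w_0) - s)`, `r > 0` the degree. The composition `φ` of
`g - g(w_0)` with a homomorphism `J/A → J` such that `J/A → J → J/A` is the multiplication by an
integer `e > 0`, is given by a divisor class `D'` on `W × T`, and
`Γ_* D'_* (w - w_0) = Γ_* φ(w) = e r Z_* (w - w_0)`. -/
def AlbaneseProperty : Prop :=
  ∀ (W V T : 𝒱.Obj) (m : ℕ) (Z : C.A (W.prod V)) (Γ : C.A (T.prod V)) (S : Set (C.A V)),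
    T.dim = 1 → C.Deg m Z → C.Deg m Γ → S.Countable →
    (∀ w : C.A W, IsNull H w → ∃ (t : C.A T) (s : C.A V), IsNull H t ∧ s ∈ S ∧
      C.act Z w = C.act Γ t + s) →
    ∃ D : C.A (W.prod T), C.Deg 1 D ∧ ∀ w : C.A W, IsNull H w → C.act Z w = C.act Γ (C.act D w)

/-- The non-vanishing of products with zero-cycles on elliptic curves: for every class `z ≠ 0` in
`CH^j(X)` (with rational coefficients) there are a curve `T` and a zero-cycle `t` of degree zero on
`T` with `z × t ≠ 0` in `CH^(j+1)(X × T)` and `t × t = 0` in `CH^2(T × T)`. For `k = ℂ` this is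
known: by a theorem of C. Schoen (On certain exterior product maps of Chow groups) the first
property can be achieved with an elliptic curve `T` (see `NonzeroProducts`). Then `t = [p] - [o]` for
two points, and `t × t` is the pull-back of one half of its push-forward to the symmetric square of
`T`; the latter is a zero-cycle of degree zero with Albanese class zero on a projective line bundle
over `T`, so it vanishes. -/
def EllipticProducts : Prop :=
  ∀ (X : 𝒱.Obj) (j : ℕ) (z : C.A X), C.Deg j z → z ≠ 0 → ∃ (T : 𝒱.Obj) (t : C.A T),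
    T.dim = 1 ∧ C.Deg 1 t ∧ H.cl t = 0 ∧ C.ext t t = 0 ∧ C.ext z t ≠ 0

/-- There are pairs `(m, s)` with `s ≥ 1` and arbitrarily large `m - s` which have the property
`p m s V` for all the varieties `V` of dimension `2 m` in the class `Cov`. -/
def InfinitelyPairs (Cov : 𝒱.Obj → Prop) (p : ℕ → ℕ → 𝒱.Obj → Prop) : Prop :=
  ∀ n : ℕ, ∃ m s : ℕ, 1 ≤ s ∧ n + s ≤ m ∧ ∀ V : 𝒱.Obj, Cov V → V.dim = 2 * m → p m s V

/-- The class `z` is an obstruction of level `s` in `CH^m(V)`: it belongs to the step
`S^(m+1) CH^m(V)` of the smallest filtration and to the `s`-th power of algebraic equivalence, the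
span of the classes `Γ_* (c_1 × ⋯ × c_s)` with zero-cycles `c_i` of degree zero on curves `T_i` and
`Γ ∈ CH^m(T_1 × ⋯ × T_s × V)`. -/
def Obstruction (N : Fam C) (m s : ℕ) {V : 𝒱.Obj} (z : C.A V) : Prop :=
  In (step H N (m + 1)) m z ∧ z ∈ algPower C V s m

/-- Every homomorphism `t ↦ Γ_* t`, `Γ ∈ CH^m(T × V)`, from the Jacobian variety of a curve `T` to the
group of the obstructions of level `s` in `CH^m(V)` is zero. -/
def NoJacobian (N : Fam C) (m s : ℕ) (V : 𝒱.Obj) : Prop :=
  ∀ (T : 𝒱.Obj) (Γ : C.A (T.prod V)), T.dim = 1 → C.Deg m Γ →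
    (∀ t : C.A T, IsNull H t → Obstruction H N m s (C.act Γ t)) →
    ∀ t : C.A T, IsNull H t → C.act Γ t = 0

end Pool.Agent.H92.BBC
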