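import Pool.Agent.H92.BBC.Defs
import Pool.Graph.R_pool_sql_team_seeded_2aa45f1a.Q72.BBF.Main
import Pool.Graph.R_pool_sql_team_seeded_ab47071d.TH133.AlgEq

/-!
# The size of the obstructions to a Bloch-Beilinson filtration
-/

open CategoryTheory AlgebraicGeometry

universe u v w

namespace Pool.Agent.H92.BBC

open Pool.Agent.H914 Pool.Agent.H914.VarClass Pool.Agent.H914.VarClass.Obj Pool.Agent.W492.BB
  Pool.Agent.W550.Corr Pool.Agent.TH133 Pool.Agent.TH829.Prime Pool.Agent.Y148.BB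
  Pool.Agent.Q69.BB Pool.Agent.Q72.DP Pool.Agent.Q72.BBF

set_option linter.unusedSectionVars false

variable {k : Type u} [Field k] {𝒱 : VarClass k}

section chow

variable {C : TheoryData.{u, v, 0} 𝒱 ℚ} [hC : IsChowProj C] {X Y Z W T V : 𝒱.Obj}

include hC

/-- The correspondence `a ↦ z × a` from `T` to `X × T`. -/
noncomputable def extCorr (C : TheoryData.{u, v, 0} 𝒱 ℚ) {X : 𝒱.Obj} (z : C.A X) (T : 𝒱.Obj) :
    C.A (T.prod (X.prod T)) :=
  C.comp (C.cograph (snd X T)) (C.mulCorr (C.pull (fst X T) z))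

lemma act_extCorr (z : C.A X) (t : C.A T) : C.act (extCorr C z T) t = C.ext z t := by
  rw [extCorr, C.act_comp, C.act_cograph, C.act_mulCorr]
  rfl

lemma mulCorr_mem {c : C.A X} {j : ℤ} (hc : C.Deg j c) : C.Deg (X.dim + j) (C.mulCorr c) := by
  have h := C.push_mem (Obj.lift (𝟙 X) (𝟙 X)) hc
  exact Q72.DP.gr_congr (by simp only [dim_prod]; push_cast; ring) h

lemma extCorr_mem {z : C.A X} {j : ℤ} (hz : C.Deg j z) (T : 𝒱.Obj) :
    C.Deg (T.dim + j) (extCorr C z T) := by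
  have h2 : C.Deg (T.dim : ℤ) (C.cograph (snd X T)) := cograph_mem (snd X T)
  exact comp_mem_deg h2 (mulCorr_mem (C.pull_mem (fst X T) hz)) (by ring)

/-- The correspondence `a ↦ a × t` from `X` to `X × T`. -/
noncomputable def extCorr' (C : TheoryData.{u, v, 0} 𝒱 ℚ) (X : 𝒱.Obj) {T : 𝒱.Obj} (t : C.A T) :
    C.A (X.prod (X.prod T)) :=
  C.comp (C.cograph (fst X T)) (C.mulCorr (C.pull (snd X T) t))

lemma act_extCorr' (z : C.A X) (t : C.A T) : C.act (extCorr' C X t) z = C.ext z t := by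
  rw [extCorr', C.act_comp, C.act_cograph, C.act_mulCorr]
  exact ch_comm C _ _

lemma extCorr'_mem {t : C.A T} {j : ℤ} (ht : C.Deg j t) (X : 𝒱.Obj) :
    C.Deg (X.dim + j) (extCorr' C X t) := by
  have h2 : C.Deg (X.dim : ℤ) (C.cograph (fst X T)) := cograph_mem (fst X T)
  exact comp_mem_deg h2 (mulCorr_mem (C.pull_mem (snd X T) ht)) (by ring)

/-- The pull-back to a product is injective. -/
lemma pull_fst_injective (X T : 𝒱.Obj) : Function.Injective (C.pull (fst X T)) := by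
  intro y y' h
  obtain ⟨a, -, ha, -⟩ := exists_deg_one C T
  have h1 : ∀ z : C.A X, C.push (fst X T) (C.pull (fst X T) z * C.pull (snd X T) a) = z := by
    intro z
    rw [C.proj_left, ha, mul_one]
  rw [← h1 y, ← h1 y', h]

lemma pull_cover_injective {π : V ⟶ X} {q : ℚ} (hq : q ≠ 0) (hπ : C.down π 1 = q • (1 : C.A X)) :
    Function.Injective (C.pull π) := by
  intro y y' h
  have h1 : ∀ z : C.A X, C.push π (C.pull π z * 1) = q • z := by
    intro z
    rw [C.proj_left]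
    have h4 : C.push π 1 = q • (1 : C.A X) := hπ
    rw [h4, mul_smul_comm, mul_one]
  have h2 : q • y = q • y' := by rw [← h1 y, ← h1 y', h]
  have h3 : q⁻¹ • q • y = q⁻¹ • q • y' := by rw [h2]
  rwa [smul_smul, smul_smul, inv_mul_cancel₀ hq, one_smul, one_smul] at h3

/-- The powers of algebraic equivalence, starting with all classes. -/
noncomputable def AP (C : TheoryData.{u, v, 0} 𝒱 ℚ) : ℕ → (X : 𝒱.Obj) → ℕ → Submodule ℚ (C.A X)
  | 0, X, l => C.gr X l
  | s + 1, X, l => algPower C X (s + 1) l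

lemma curveCycle_dim {s : ℕ} {Y : 𝒱.Obj} {y : C.A Y} (h : CurveCycle C s Y y) :
    Y.dim = s ∧ C.Deg (s : ℤ) y := by
  induction h with
  | one T c hT hc hd => exact ⟨hT, by exact_mod_cast hc⟩
  | cons s T Y c y hT hc hd hy ih =>
    refine ⟨by rw [dim_prod, hT, ih.1, add_comm], ?_⟩
    have := ext_mem' hc ih.2
    push_cast
    rwa [add_comm]

lemma AP_pull {X Y : 𝒱.Obj} (f : X ⟶ Y) {s l : ℕ} {y : C.A Y} (hy : y ∈ AP C s Y l) :
    C.pull f y ∈ AP C s X l := by
  rcases s with _ | s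
  · exact C.pull_mem f hy
  · change y ∈ algPower C Y (s + 1) l at hy
    change C.pull f y ∈ algPower C X (s + 1) l
    rw [algPower] at hy
    induction hy using Submodule.span_induction with
    | mem x hx =>
      obtain ⟨P, c, Γ, hc, hΓ, rfl⟩ := hx
      refine Submodule.subset_span ⟨P, c, C.comp Γ (C.cograph f), hc, ?_, ?_⟩
      · have h : C.Deg (Y.dim : ℤ) (C.cograph f) := cograph_mem f
        exact comp_mem_deg hΓ h (by ring)
      · rw [C.act_comp, C.act_cograph]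
    | zero => rw [map_zero]; exact Submodule.zero_mem _
    | add x y _ _ hx hy => rw [map_add]; exact Submodule.add_mem _ hx hy
    | smul q x _ hx => rw [map_smul]; exact Submodule.smul_mem _ _ hx

lemma AP_anti (s : ℕ) (X : 𝒱.Obj) (l : ℕ) : AP C (s + 1) X l ≤ AP C s X l := by
  rcases s with _ | s
  · change algPower C X 1 l ≤ C.gr X l
    rw [algPower, Submodule.span_le]
    rintro _ ⟨P, c, Γ, hc, hΓ, rfl⟩
    obtain ⟨h1, h2⟩ := curveCycle_dim hc
    exact act_mem_deg hΓ h2 (by rw [h1]; push_cast; ring)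
  · change algPower C X (s + 2) l ≤ algPower C X (s + 1) l
    rw [algPower, Submodule.span_le]
    rintro _ ⟨P, c, Γ, hc, hΓ, rfl⟩
    cases hc with
    | cons _ T Y c y hT hc hd hy =>
      refine Submodule.subset_span ⟨Y, y, C.comp (extCorr C c Y) Γ, hy, ?_, ?_⟩
      · exact comp_mem_deg (extCorr_mem hc Y) hΓ (by rw [dim_prod, hT]; push_cast; ring)
      · rw [C.act_comp, act_extCorr]

lemma AP_anti' {s s' : ℕ} (h : s ≤ s') (X : 𝒱.Obj) (l : ℕ) : AP C s' X l ≤ AP C s X l := by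
  induction h with
  | refl => exact le_rfl
  | step _ ih => exact (AP_anti _ X l).trans ih

lemma ext_swap (a : C.A X) (b : C.A Y) : C.ext a b = C.pull (sw X Y) (C.ext b a) := by
  have e1 : sw X Y ≫ fst Y X = snd X Y := lift_fst _ _
  have e2 : sw X Y ≫ snd Y X = fst X Y := lift_snd _ _
  rw [TheoryData.ext, TheoryData.ext, map_mul, ← C.pull_comp, ← C.pull_comp, e1, e2, ch_comm C]

/-- The product with a zero-cycle of degree zero on a curve raises the power of algebraic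
equivalence. -/
lemma AP_ext {s l : ℕ} {z : C.A X} (hz : z ∈ AP C s X l) {t : C.A T} (hT : T.dim = 1)
    (ht : C.Deg 1 t) (hd : HasDegree C t 0) : C.ext z t ∈ AP C (s + 1) (X.prod T) (l + 1) := by
  rcases s with _ | s
  · refine Submodule.subset_span ⟨T, t, extCorr C z T, CurveCycle.one T t hT ht hd, ?_, ?_⟩
    · have hz' : C.Deg (l : ℤ) z := hz
      exact Q72.DP.gr_congr (by rw [hT]; push_cast; ring) (extCorr_mem hz' T)
    · rw [act_extCorr]
  · rw [ext_swap]
    apply AP_pull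
    change z ∈ algPower C X (s + 1) l at hz
    change C.ext t z ∈ algPower C (T.prod X) (s + 2) (l + 1)
    rw [algPower] at hz
    induction hz using Submodule.span_induction with
    | mem x hx =>
      obtain ⟨P, c, Γ, hc, hΓ, rfl⟩ := hx
      refine Submodule.subset_span ⟨T.prod P, C.ext t c, tens C (dg C T) Γ,
        CurveCycle.cons (s + 1) T P t c hT ht hd hc, ?_, ?_⟩
      · exact Q72.DP.gr_congr (by rw [hT]; push_cast; ring) (tens_mem C (dg_mem C T) hΓ)
      · rw [act_tens_ext C _ _ (fun _ _ => ch_comm C _ _), act_dg]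
    | zero =>
      rw [TheoryData.ext, map_zero, mul_zero]
      exact Submodule.zero_mem _
    | add x y _ _ hx hy =>
      rw [TheoryData.ext, map_add, mul_add]
      exact Submodule.add_mem _ hx hy
    | smul q x _ hx =>
      rw [TheoryData.ext, map_smul, mul_smul_comm]
      exact Submodule.smul_mem _ _ hx

lemma sq_pull {X Y : 𝒱.Obj} (f : X ⟶ Y) {y : C.A Y} (hy : C.ext y y = 0) :
    C.ext (C.pull f y) (C.pull f y) = 0 := by
  rw [← pull_ext C, hy, map_zero]

lemma sq_ext {z : C.A X} {t : C.A T} (ht : C.ext t t = 0) :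
    C.ext (C.ext z t) (C.ext z t) = 0 := by
  have h1 : C.pull (prodMap (snd X T) (snd X T)) (C.ext t t) = 0 := by rw [ht, map_zero]
  rw [pull_ext C] at h1
  have h2 : C.ext (C.ext z t) (C.ext z t) =
      C.ext (C.pull (fst X T) z) (C.pull (fst X T) z) *
        C.ext (C.pull (snd X T) t) (C.pull (snd X T) t) := by
    simp only [TheoryData.ext, map_mul]
    generalize C.pull (fst (X.prod T) (X.prod T)) (C.pull (fst X T) z) = a
    generalize C.pull (snd (X.prod T) (X.prod T)) (C.pull (fst X T) z) = b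
    generalize C.pull (fst (X.prod T) (X.prod T)) (C.pull (snd X T) t) = c
    generalize C.pull (snd (X.prod T) (X.prod T)) (C.pull (snd X T) t) = d
    rw [mul_assoc, ← mul_assoc c b d, ch_comm C c b, mul_assoc b, ← mul_assoc]
  rw [h2, h1, mul_zero]

end chow

section weil

variable {C : TheoryData.{u, v, 0} 𝒱 ℚ} [hC : IsChowProj C] {K : Type w} [Field K]
  {H : WeilTheoryData.{u, v, w} C K} [hH : IsWeilProj H]
  {N : ∀ X : 𝒱.Obj, ℕ → Submodule ℚ (C.A X)} {X Y Z W T V : 𝒱.Obj}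

include hC hH

/-- There are curves. -/
lemma exists_curve (hP : EllipticProducts H) (X : 𝒱.Obj) : ∃ T : 𝒱.Obj, T.dim = 1 := by
  have h1 : (1 : C.A X) ≠ 0 := by
    intro h
    apply hH.one_ne_zero X
    rw [← map_one H.cl, h, map_zero]
  obtain ⟨T, -, hT, -⟩ := hP X 0 1 (C.one_mem X) h1
  exact ⟨T, hT⟩

/-- Every variety is dominated by varieties of all larger dimensions. -/
lemma exists_above (hP : EllipticProducts H) (X : 𝒱.Obj) (r : ℕ) :
    ∃ (P : 𝒱.Obj) (f : P ⟶ X), P.dim = X.dim + r ∧ Function.Injective (C.pull f) := by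
  obtain ⟨T, hT⟩ := exists_curve hP X
  induction r with
  | zero =>
    refine ⟨X, 𝟙 X, rfl, fun y y' h => ?_⟩
    rwa [C.pull_id, C.pull_id] at h
  | succ r ih =>
    obtain ⟨P, f, hd, hf⟩ := ih
    refine ⟨P.prod T, fst P T ≫ f, by rw [dim_prod, hd, hT]; ring, fun y y' h => ?_⟩
    rw [C.pull_comp, C.pull_comp] at h
    exact hf (pull_fst_injective P T h)

/-- Every variety of dimension at most `2 m` is dominated by varieties of dimension `2 m` in the
class `Cov`. -/
lemma exists_cover (hP : EllipticProducts H) {Cov : 𝒱.Obj → Prop} (hCov : HasCoverings C Cov)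
    (X : 𝒱.Obj) {m : ℕ} (h : X.dim ≤ 2 * m) :
    ∃ (V : 𝒱.Obj) (f : V ⟶ X), Cov V ∧ V.dim = 2 * m ∧ Function.Injective (C.pull f) := by
  obtain ⟨P, f, hd, hf⟩ := exists_above hP X (2 * m - X.dim)
  obtain ⟨V, π, q, hV, hVd, hq, hπ⟩ := hCov P
  refine ⟨V, π ≫ f, hV, by rw [hVd, hd]; omega, fun y y' h => ?_⟩
  rw [C.pull_comp, C.pull_comp] at h
  exact hf (pull_cover_injective hq hπ h)

/-- Raising the codimension with elliptic curves. -/
lemma exists_raise' (hN : IsAbelJacobiKernel H N) (hP : EllipticProducts H) {j n : ℕ}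
    {z : C.A X} (hz : z ∈ minFil H N n X j) (hzd : C.Deg j z) (h0 : z ≠ 0) (s : ℕ) :
    ∃ (Y : 𝒱.Obj) (y : C.A Y), Y.dim = X.dim + s ∧ y ∈ minFil H N (n + s) Y (j + s) ∧
      C.Deg ((j + s : ℕ) : ℤ) y ∧ y ∈ AP C s Y (j + s) ∧ y ≠ 0 ∧ (1 ≤ s → C.ext y y = 0) := by
  induction s with
  | zero => exact ⟨X, z, rfl, hz, hzd, hzd, h0, fun h => absurd h (by omega)⟩
  | succ s ih =>
    obtain ⟨Y, y, hd, hy, hyd, hya, hy0, -⟩ := ih
    obtain ⟨T, t, hT, ht, ht0, htt, hne⟩ := hP Y (j + s) y hyd hy0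
    have htd : HasDegree C t 0 := hasDegree_zero_of_cl H (by rw [hT]; exact_mod_cast ht) ht0
    refine ⟨Y.prod T, C.ext y t, ?_, ext_raise hN hy ht ht0, ?_, AP_ext hya hT ht htd, hne,
      fun _ => sq_ext htt⟩
    · rw [dim_prod, hd, hT]
      ring
    · have h1 := C.mul_mem (C.pull_mem (fst Y T) hyd) (C.pull_mem (snd Y T) ht)
      exact Q72.DP.gr_congr (by push_cast; ring) h1

/-- The correspondence `Δ - T × o` on the curve `T`. -/
noncomputable def red (C : TheoryData.{u, v, 0} 𝒱 ℚ) {T : 𝒱.Obj} (o : C.A T) :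
    C.A (T.prod T) := dg C T - C.ext 1 o

omit hH in
lemma red_mem {o : C.A T} (hT : T.dim = 1) (ho : C.Deg 1 o) : C.Deg T.dim (red C o) := by
  refine Submodule.sub_mem _ (dg_mem C T) ?_
  have h := ext_mem' (C.one_mem T) ho
  exact Q72.DP.gr_congr (by simp [hT]) h

lemma red_act_null {o : C.A T} (hT : T.dim = 1)
    {t : C.A T} (ht : C.Deg 1 t) (h0 : H.cl t = 0) : C.act (red C o) t = t := by
  have h1 : HasDegree C (1 * t) 0 := by
    rw [one_mul]
    exact hasDegree_zero_of_cl H (by rw [hT]; exact_mod_cast ht) h0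
  rw [red, C.act_sub, act_dg, act_ext' h1, zero_smul, sub_zero]

lemma red_act {o : C.A T} (hT : T.dim = 1) (ho : C.Deg 1 o) (hd : HasDegree C o 1) {a : C.A T}
    (ha : C.Deg 1 a) : C.Deg 1 (C.act (red C o) a) ∧ H.cl (C.act (red C o) a) = 0 := by
  refine ⟨act_mem0 C (red_mem hT ho) ha, ?_⟩
  have ho' : o ∈ C.gr T T.dim := by rw [hT]; exact_mod_cast ho
  have ha' : a ∈ C.gr T T.dim := by rw [hT]; exact_mod_cast ha
  obtain ⟨c, hc⟩ := top_eq ho' hd (H.cl_mem ha')
  have h1 : HasDegree C (1 * o) 1 := by rwa [one_mul]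
  have h2 : C.act (red C o) o = 0 := by
    rw [red, C.act_sub, act_dg, act_ext' h1, one_smul, sub_self]
  rw [cl_act, hc]
  have h3 : H.act (H.cl (red C o)) (c • H.cl o) = c • H.act (H.cl (red C o)) (H.cl o) :=
    act_map_smul (T := H.toTheoryData) _ _ _
  rw [h3, ← cl_act, h2, map_zero, smul_zero]

/-- If all the classes `y × t_1 × t_2` belong to a set which is finite-dimensional up to a countable
set, they vanish (after the pull-back along `f`). -/
lemma bilinear_vanish (hN : IsAbelJacobiKernel H N) (hA : AlbaneseProperty H)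
    (hZ : ZeroCyclesOnProducts C) {y : C.A Y} {i : ℕ} (hy : C.Deg i y) {T₁ T₂ : 𝒱.Obj}
    (hT₁ : T₁.dim = 1) (hT₂ : T₂.dim = 1) (f : V ⟶ (Y.prod T₁).prod T₂)
    {G : Submodule ℚ (C.A V)} (hG : ∀ (a : C.A T₁) (b : C.A T₂), C.Deg 1 a → H.cl a = 0 →
      C.Deg 1 b → H.cl b = 0 → C.pull f (C.ext (C.ext y a) b) ∈ G)
    (hs : SmallAt H (i + 2) fun z => z ∈ G)
    {a : C.A T₁} {b : C.A T₂} (ha : C.Deg 1 a) (ha0 : H.cl a = 0) (hb : C.Deg 1 b)
    (hb0 : H.cl b = 0) : C.pull f (C.ext (C.ext y a) b) = 0 := by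
  obtain ⟨o₁, ho₁, h11, h12⟩ := exists_deg_one C T₁
  obtain ⟨o₂, ho₂, h21, h22⟩ := exists_deg_one C T₂
  have ho₁' : C.Deg 1 o₁ := by
    have h : C.Deg T₁.dim o₁ := ho₁
    rw [hT₁] at h
    exact_mod_cast h
  have ho₂' : C.Deg 1 o₂ := by
    have h : C.Deg T₂.dim o₂ := ho₂
    rw [hT₂] at h
    exact_mod_cast h
  have hd₁ : HasDegree C o₁ 1 := fun W => by rw [one_smul]; exact ⟨h12 W, h11 W⟩
  have hd₂ : HasDegree C o₂ 1 := fun W => by rw [one_smul]; exact ⟨h22 W, h21 W⟩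
  -- the family
  set E : C.A ((T₁.prod T₂).prod ((Y.prod T₁).prod T₂)) :=
    C.comp (C.cograph (t23 Y T₁ T₂))
      (C.mulCorr (C.pull (fst (Y.prod T₁) T₂) (C.pull (fst Y T₁) y))) with hE
  set Z : C.A ((T₁.prod T₂).prod V) :=
    C.comp (C.comp (tens C (red C o₁) (red C o₂)) E) (C.cograph f) with hZdef
  have actE : ∀ (a : C.A T₁) (b : C.A T₂), C.act E (C.ext a b) = C.ext (C.ext y a) b := by
    intro a b
    rw [hE, C.act_comp, C.act_cograph, C.act_mulCorr]
    have e1 : t23 Y T₁ T₂ ≫ fst T₁ T₂ = fst (Y.prod T₁) T₂ ≫ snd Y T₁ := t23_fst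
    have e2 : t23 Y T₁ T₂ ≫ snd T₁ T₂ = snd (Y.prod T₁) T₂ := t23_snd
    simp only [TheoryData.ext, map_mul]
    rw [← C.pull_comp (t23 Y T₁ T₂), ← C.pull_comp (t23 Y T₁ T₂), e1, e2,
      C.pull_comp (fst (Y.prod T₁) T₂) (snd Y T₁), mul_assoc]
  have actZ : ∀ (a : C.A T₁) (b : C.A T₂), C.act Z (C.ext a b) =
      C.pull f (C.ext (C.ext y (C.act (red C o₁) a)) (C.act (red C o₂) b)) := by
    intro a b
    rw [hZdef, C.act_comp, C.act_comp, C.act_cograph, act_tens_ext C _ _ (fun _ _ => ch_comm C _ _),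
      actE]
  have degE : C.Deg ((T₁.prod T₂).dim + i : ℤ) E := by
    have h1 : C.Deg ((T₁.prod T₂).dim : ℤ) (C.cograph (t23 Y T₁ T₂)) := cograph_mem _
    exact comp_mem_deg h1 (mulCorr_mem (C.pull_mem _ (C.pull_mem _ hy))) (by ring)
  have degZ : C.Deg ((i + 2 : ℕ) : ℤ) Z := by
    have h1 : C.Deg ((T₁.prod T₂).dim : ℤ) (tens C (red C o₁) (red C o₂)) :=
      Q72.DP.gr_congr (by rw [dim_prod]; push_cast; ring)
        (tens_mem C (red_mem hT₁ ho₁') (red_mem hT₂ ho₂'))
    have h2 : C.Deg ((((Y.prod T₁).prod T₂).dim : ℕ) : ℤ) (C.cograph f) := cograph_mem _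
    refine comp_mem_deg (comp_mem_deg h1 degE (c := (T₁.prod T₂).dim + i) (by ring)) h2 ?_
    rw [dim_prod, hT₁, hT₂]
    push_cast
    ring
  have memZ : ∀ w : C.A (T₁.prod T₂), C.Deg (T₁.prod T₂).dim w → C.act Z w ∈ G := by
    intro w hw
    have h1 := hZ T₁ T₂ w hw
    clear hw
    induction h1 using Submodule.span_induction with
    | mem x hx =>
      obtain ⟨a, b, ha, hb, rfl⟩ := hx
      rw [hT₁] at ha
      rw [hT₂] at hb
      have ha' : C.Deg 1 a := by exact_mod_cast ha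
      have hb' : C.Deg 1 b := by exact_mod_cast hb
      rw [actZ]
      obtain ⟨h2, h3⟩ := red_act (H := H) hT₁ ho₁' hd₁ ha'
      obtain ⟨h4, h5⟩ := red_act (H := H) hT₂ ho₂' hd₂ hb'
      exact hG _ _ h2 h3 h4 h5
    | zero => rw [C.act_map_zero]; exact Submodule.zero_mem _
    | add x y _ _ hx hy => rw [act_map_add]; exact Submodule.add_mem _ hx hy
    | smul q x _ hx => rw [act_map_smul]; exact Submodule.smul_mem _ _ hx
  obtain ⟨T, Γ, S, hT, hΓ, hS, hrep⟩ := hs
  obtain ⟨D, hD, hfac⟩ := hA (T₁.prod T₂) V T (i + 2) Z Γ S hT degZ hΓ hS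
    (fun w hw => hrep _ (memZ w hw.1))
  -- the class `a × b` belongs to the kernel of the Albanese map
  have hab : C.ext a b ∈ N (T₁.prod T₂) 2 := by
    have h1 : a ∈ minFil H N 1 T₁ 1 := ⟨by exact_mod_cast ha, ha0⟩
    exact ext_raise hN h1 hb hb0
  have hD0 : C.act D (C.ext a b) = 0 := by
    refine hN.abel T _ (hN.stable (T₁.prod T₂) T 2 1 D ?_ _ hab)
    exact Q72.DP.gr_congr (by rw [dim_prod, hT₁, hT₂]; norm_num) hD
  have hnull : IsNull H (C.ext a b) := by
    obtain ⟨h1, h2⟩ := hN.deg _ _ _ hab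
    exact ⟨Q72.DP.gr_congr (by rw [dim_prod, hT₁, hT₂]) h1, h2⟩
  have h1 := hfac _ hnull
  rwa [hD0, C.act_map_zero, actZ, red_act_null hT₁ ha ha0, red_act_null hT₂ hb hb0] at h1

/-- A class `z ≠ 0` in the last step `S^(j+1) CH^j(X)` gives rise to obstructions of a large level on
the varieties of dimension `2 m` in the class `Cov`. -/
theorem main (hN : IsAbelJacobiKernel H N) (hP : EllipticProducts H) (hZ : ZeroCyclesOnProducts C)
    (hA : AlbaneseProperty H) {Cov : 𝒱.Obj → Prop} (hCov : HasCoverings C Cov) :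
    [∃ F, IsBB H N F,
      InfinitelyPairs Cov fun m s V => SmallAt H m fun z : C.A V => Obstruction H N m s z,
      InfinitelyPairs Cov fun m s V => ∀ z : C.A V, Obstruction H N m s z → C.ext z z = 0 → z = 0,
      InfinitelyPairs Cov fun m s V => NoJacobian H N m s V].TFAE := by
  have vanish : (∃ F, IsBB H N F) → ∀ (m s : ℕ) (V : 𝒱.Obj) (z : C.A V),
      Obstruction H N m s z → z = 0 := by
    intro h m s V z hz
    rw [exists_isBB_iff] at h
    obtain ⟨F, hF⟩ := h
    have hz' : z ∈ minFil H N (m + 1) V m := by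
      rw [← step_eq]
      exact hz.1
    have h1 := minFil_le hF (m + 1) V m hz'
    rw [hF.top V trivial m] at h1
    exact (Submodule.mem_bot ℚ).1 h1
  have obs : ∀ {m s : ℕ} {V : 𝒱.Obj} {z : C.A V}, 1 ≤ s → z ∈ minFil H N (m + 1) V m →
      z ∈ AP C s V m → Obstruction H N m s z := by
    intro m s V z hs h1 h2
    obtain ⟨s, rfl⟩ := Nat.exists_eq_add_of_le' hs
    refine ⟨?_, h2⟩
    change z ∈ step H N (m + 1) V m
    rw [step_eq]
    exact h1
  have exi : (¬ ∃ F, IsBB H N F) → ∃ (X : 𝒱.Obj) (j : ℕ) (z : C.A X),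
      z ∈ minFil H N (j + 1) X j ∧ C.Deg j z ∧ z ≠ 0 := by
    intro h
    rw [exists_isBB_iff] at h
    by_contra h1
    apply h
    refine ⟨_, minFil_isBB hN fun X j => ?_⟩
    rw [eq_bot_iff]
    intro z hz
    by_contra hz0
    rw [Submodule.mem_bot] at hz0
    exact h1 ⟨X, j, z, hz, ((step_isAJKernel hN j).deg X j z (by rwa [step_eq])).1, hz0⟩
  tfae_have 1 → 2 := by
    intro h n
    refine ⟨n + 1, 1, le_rfl, le_rfl, fun V _ _ => ?_⟩
    obtain ⟨T, hT⟩ := exists_curve hP V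
    refine ⟨T, 0, {0}, hT, Submodule.zero_mem _, Set.countable_singleton 0, fun z hz => ?_⟩
    refine ⟨0, 0, ⟨Submodule.zero_mem _, map_zero _⟩, rfl, ?_⟩
    rw [C.act_zero, add_zero]
    exact vanish h _ _ _ _ hz
  tfae_have 1 → 3 := by
    intro h n
    exact ⟨n + 1, 1, le_rfl, le_rfl, fun V _ _ z hz _ => vanish h _ _ _ _ hz⟩
  tfae_have 1 → 4 := by
    intro h n
    exact ⟨n + 1, 1, le_rfl, le_rfl, fun V _ _ T Γ _ _ h1 t ht => vanish h _ _ _ _ (h1 t ht)⟩
  tfae_have 4 → 1 := by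
    intro h
    by_contra hne
    obtain ⟨X, j, z, hz, hzd, hz0⟩ := exi hne
    obtain ⟨m, s, hs, hm, h1⟩ := h (X.dim + j)
    obtain ⟨Y, y, hYd, hy, hyd, hya, hy0, -⟩ := exists_raise' hN hP hz hzd hz0 (m - j - 1)
    have e1 : j + 1 + (m - j - 1) = m := by omega
    have e2 : j + (m - j - 1) = m - 1 := by omega
    rw [e1, e2] at hy
    rw [e2] at hya hyd
    obtain ⟨T, t, hT, ht, ht0, -, hne'⟩ := hP Y (m - 1) y hyd hy0
    obtain ⟨V, f, hV, hVd, hf⟩ := exists_cover hP hCov (Y.prod T) (m := m) (by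
      rw [dim_prod, hYd, hT]
      omega)
    have hact : ∀ t' : C.A T, C.act (C.comp (extCorr C y T) (C.cograph f)) t' =
        C.pull f (C.ext y t') := by
      intro t'
      rw [C.act_comp, C.act_cograph, act_extCorr]
    have hdeg : C.Deg (m : ℤ) (C.comp (extCorr C y T) (C.cograph f)) := by
      have h2 : C.Deg (((Y.prod T).dim : ℕ) : ℤ) (C.cograph f) := cograph_mem _
      refine comp_mem_deg (extCorr_mem hyd T) h2 ?_
      rw [hT]
      have : ((m - 1 : ℕ) : ℤ) = m - 1 := by omega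
      rw [this]
      push_cast
      ring
    have h3 := h1 V hV hVd T _ hT hdeg (fun t' ht' => by
      rw [hact]
      have ht1 : C.Deg 1 t' := by
        have h4 := ht'.1
        rw [hT] at h4
        exact_mod_cast h4
      have e3 : m - 1 + 1 = m := by omega
      have h5 := pull_mem_minFil hN f (ext_raise hN hy ht1 ht'.2)
      have h6 := AP_pull f (AP_ext hya hT ht1 (hasDegree_zero_of_cl H ht'.1 ht'.2))
      rw [e3] at h5 h6
      exact obs hs h5 (AP_anti' (by omega) V m h6)) t ⟨by rw [hT]; exact_mod_cast ht, ht0⟩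
    rw [hact] at h3
    exact hne' (hf (by rw [h3, map_zero]))
  tfae_have 3 → 1 := by
    intro h
    by_contra hne
    obtain ⟨X, j, z, hz, hzd, hz0⟩ := exi hne
    obtain ⟨m, s, hs, hm, h1⟩ := h (X.dim + j)
    obtain ⟨Y, y, hYd, hy, -, hya, hy0, hyy⟩ := exists_raise' hN hP hz hzd hz0 (m - j)
    have e1 : j + 1 + (m - j) = m + 1 := by omega
    have e2 : j + (m - j) = m := by omega
    rw [e1, e2] at hy
    rw [e2] at hya
    obtain ⟨V, f, hV, hVd, hf⟩ := exists_cover hP hCov Y (m := m) (by omega)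
    have h2 : Obstruction H N m s (C.pull f y) :=
      obs hs (pull_mem_minFil hN f hy) (AP_pull f (AP_anti' (by omega) Y m hya))
    have h3 := h1 V hV hVd _ h2 (sq_pull f (hyy (by omega)))
    exact hy0 (hf (by rw [h3, map_zero]))
  tfae_have 2 → 1 := by
    intro h
    by_contra hne
    obtain ⟨X, j, z, hz, hzd, hz0⟩ := exi hne
    obtain ⟨m, s, hs, hm, h1⟩ := h (X.dim + j + 1)
    obtain ⟨Y, y, hYd, hy, hyd, hya, hy0, -⟩ := exists_raise' hN hP hz hzd hz0 (m - j - 2)
    have e1 : j + 1 + (m - j - 2) = m - 1 := by omega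
    have e2 : j + (m - j - 2) = m - 2 := by omega
    rw [e1, e2] at hy
    rw [e2] at hya hyd
    obtain ⟨T₁, t₁, hT₁, ht₁, ht₁0, -, hne₁⟩ := hP Y (m - 2) y hyd hy0
    have hyd₁ : C.Deg ((m - 2 + 1 : ℕ) : ℤ) (C.ext y t₁) := by
      have h1 := C.mul_mem (C.pull_mem (fst Y T₁) hyd) (C.pull_mem (snd Y T₁) ht₁)
      exact Q72.DP.gr_congr (by push_cast; ring) h1
    obtain ⟨T₂, t₂, hT₂, ht₂, ht₂0, -, hne₂⟩ := hP _ _ _ hyd₁ hne₁
    obtain ⟨V, f, hV, hVd, hf⟩ := exists_cover hP hCov ((Y.prod T₁).prod T₂) (m := m) (by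
      rw [dim_prod, dim_prod, hYd, hT₁, hT₂]
      omega)
    have key : ∀ (a : C.A T₁) (b : C.A T₂), C.Deg 1 a → H.cl a = 0 → C.Deg 1 b → H.cl b = 0 →
        C.pull f (C.ext (C.ext y a) b) ∈ minFil H N (m + 1) V m ⊓ AP C s V m := by
      intro a b ha ha0 hb hb0
      have hda : HasDegree C a 0 := hasDegree_zero_of_cl H (by rw [hT₁]; exact_mod_cast ha) ha0
      have hdb : HasDegree C b 0 := hasDegree_zero_of_cl H (by rw [hT₂]; exact_mod_cast hb) hb0
      constructor
      · apply pull_mem_minFil hN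
        have h2 := ext_raise hN (ext_raise hN hy ha ha0) hb hb0
        have e3 : m - 1 + 1 + 1 = m + 1 := by omega
        have e4 : m - 2 + 1 + 1 = m := by omega
        rwa [e3, e4] at h2
      · apply AP_pull
        have h2 := AP_ext (AP_ext hya hT₁ ha hda) hT₂ hb hdb
        have e4 : m - 2 + 1 + 1 = m := by omega
        rw [e4] at h2
        exact AP_anti' (by omega) _ m h2
    have e5 : m - 2 + 2 = m := by omega
    have hsm : SmallAt H (m - 2 + 2) fun z : C.A V => z ∈ minFil H N (m + 1) V m ⊓ AP C s V m := by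
      rw [e5]
      obtain ⟨T, Γ, S, hT, hΓ, hS, hrep⟩ := h1 V hV hVd
      exact ⟨T, Γ, S, hT, hΓ, hS, fun z hz => hrep z (obs hs hz.1 hz.2)⟩
    have h3 := bilinear_vanish hN hA hZ hyd hT₁ hT₂ f key hsm ht₁ ht₁0 ht₂ ht₂0
    exact hne₂ (hf (by rw [h3, map_zero]))
  tfae_finish

end weil

end Pool.Agent.H92.BBC
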